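import Pool.Agent.Helper86.TC8.Stmts
import Pool.Agent.ThreeDec.Init
import Pool.Agent.ThreeDec.Split30

set_option autoImplicit false

/-! `st_MAT0`: a matching of the graph without bridges which covers all vertices of degree 3. -/

namespace Pool.Agent.Helper18.TC8

open Pool.Agent.Helper86.TC8
open Pool.Agent.ThreeDec (dg bd IsMat cover_of_tutte bd_sum_le bd_parity bd_ne_one Bridgeless)
open Pool.Agent.ThreeDec.R30 (nobr nobr_bridgeless nobr_le dg_ncard dg_mono)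

theorem noBr_eq {V : Type} (G : SimpleGraph V) : noBr G = nobr G := by
  ext a b
  exact Iff.rfl

theorem odd_bd {V : Type} [Fintype V] (W : SimpleGraph V) (hb : Bridgeless W) (Q : Finset V)
    (hQ : Odd Q.card) (hr : ∀ v ∈ Q, dg W v = 3) : 3 ≤ bd W Q := by
  have h1 := bd_parity W Q
  have h2 : ∑ v ∈ Q, dg W v = Q.card * 3 := by
    rw [Finset.sum_congr rfl hr, Finset.sum_const, smul_eq_mul]
  rw [h2] at h1
  have h3 := bd_ne_one hb Q
  obtain ⟨k, hk⟩ := hQ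
  rw [hk] at h1
  omega

theorem cover {V : Type} [Fintype V] (W : SimpleGraph V) (hb : Bridgeless W)
    (hd : ∀ v, dg W v ≤ 3) : ∃ M : SimpleGraph V, M ≤ W ∧ IsMat M ∧
      ∀ v, dg W v = 3 → ∃ w, M.Adj v w := by
  classical
  refine cover_of_tutte W (fun v => dg W v = 3) ?_
  intro A O hQ hdis
  have hle : ∑ Q ∈ O, bd W Q ≤ ∑ a ∈ A, dg W a :=
    bd_sum_le W A O (fun Q hq => ⟨(hQ Q hq).2.1, (hQ Q hq).2.2.2⟩) hdis
  have hA : ∑ a ∈ A, dg W a ≤ 3 * A.card := by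
    calc ∑ a ∈ A, dg W a ≤ ∑ a ∈ A, 3 := Finset.sum_le_sum (fun a _ => hd a)
      _ = 3 * A.card := by rw [Finset.sum_const, smul_eq_mul, mul_comm]
  have hpt : ∀ Q ∈ O, 3 ≤ bd W Q := fun Q hq => odd_bd W hb Q (hQ Q hq).1 (hQ Q hq).2.2.1
  have hsum : 3 * O.card ≤ ∑ Q ∈ O, bd W Q := by
    calc 3 * O.card = ∑ Q ∈ O, 3 := by rw [Finset.sum_const, smul_eq_mul, mul_comm]
      _ ≤ _ := Finset.sum_le_sum hpt
  omega

theorem st_MAT0 : ST_MAT0 := by
  classical
  intro V _ G hG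
  have : Fintype V := Fintype.ofFinite V
  rw [noBr_eq]
  have hd : ∀ v, dg (nobr G) v ≤ 3 := by
    intro v
    have h1 := dg_mono (nobr_le G) v
    have h2 : dg G v = 3 := by rw [dg_ncard]; exact hG v
    rw [h2] at h1
    exact h1
  obtain ⟨M, hM, hmat, hcov⟩ := cover (nobr G) (nobr_bridgeless G) hd
  refine ⟨M, hM, hmat, ?_⟩
  intro v hv
  exact hcov v (by rw [dg_ncard]; exact hv)

end Pool.Agent.Helper18.TC8
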